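import Mathlib

set_option autoImplicit false
set_option linter.unusedSectionVars false

/-!
For a measurable set `A` and a set `L` with `A + L ⊆ M`, some translate of `L` contains a share
`|L| / |M|` of the measure of `A` (Cauchy-Schwarz on the sum of the indicators of `x + L`,
`x ∈ A`; observation of helper2 in the finite case).
-/

namespace Pool.Agent.H519R2.Homo

open MeasureTheory Set
open scoped ENNReal Pointwise

section

variable {E : Type*} [NormedAddCommGroup E] [NormedSpace ℝ E] [FiniteDimensional ℝ E]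
  [MeasurableSpace E] [BorelSpace E] (μ : Measure E) [μ.IsAddHaarMeasure]

/-- indicator -/
noncomputable def ind (L : Set E) : E → ℝ≥0∞ := L.indicator (fun _ => 1)

omit [NormedSpace ℝ E] [FiniteDimensional ℝ E] in
theorem measurable_ind {L : Set E} (hL : MeasurableSet L) : Measurable (ind L) :=
  measurable_const.indicator hL

omit [NormedSpace ℝ E] [FiniteDimensional ℝ E] [μ.IsAddHaarMeasure] in
theorem lintegral_ind {L : Set E} (hL : MeasurableSet L) : ∫⁻ x, ind L x ∂μ = μ L := by
  unfold ind
  rw [lintegral_indicator_const hL, one_mul]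

omit [NormedSpace ℝ E] [FiniteDimensional ℝ E] [μ.IsAddHaarMeasure] in
theorem lintegral_ind_mul {A L : Set E} (hA : MeasurableSet A) (hL : MeasurableSet L) (t : E) :
    ∫⁻ x, ind A x * ind L (x - t) ∂μ = μ (A ∩ (fun x => x - t) ⁻¹' L) := by
  have h1 : ∀ x, ind A x * ind L (x - t) = ind (A ∩ (fun x => x - t) ⁻¹' L) x := by
    intro x
    unfold ind
    by_cases hx : x ∈ A <;> by_cases hy : x - t ∈ L <;>
      simp [Set.indicator, hx, hy]
  simp_rw [h1]
  exact lintegral_ind μ (hA.inter ((measurable_id.sub_const t) hL))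

theorem heavy (A L M : Set E) (hA : MeasurableSet A) (hL : MeasurableSet L)
    (hM : MeasurableSet M) (hLM : ∀ x ∈ A, ∀ y ∈ L, x + y ∈ M)
    (hL0 : μ L ≠ 0) (hLf : μ L ≠ ∞) (hA0 : μ A ≠ 0) (hAf : μ A ≠ ∞) (hMf : μ M ≠ ∞) :
    ∃ t : E, μ A * μ L ≤ μ (A ∩ (fun x => x - t) ⁻¹' L) * μ M := by
  by_contra hcon
  push Not at hcon
  set g : E → ℝ≥0∞ := fun y => ∫⁻ x, ind A x * ind L (y - x) ∂μ with hg
  have hmA := measurable_ind hA
  have hmL := measurable_ind hL
  have hs1 : ∀ x, Measurable (fun y => ind L (y - x)) := fun x =>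
    hmL.comp (measurable_id.sub_const x)
  have hs2 : ∀ y, Measurable (fun x => ind L (y - x)) := fun y =>
    hmL.comp (measurable_const.sub measurable_id)
  have hA2 : ∀ y, Measurable (fun x => ind A x * ind L (y - x)) := fun y => hmA.mul (hs2 y)
  have hA1 : ∀ t, Measurable (fun x => ind A x * ind L (x - t)) := fun t => hmA.mul (hs1 t)
  have hjm : Measurable (fun p : E × E => ind A p.2 * ind L (p.1 - p.2)) :=
    (hmA.comp measurable_snd).mul (hmL.comp (measurable_fst.sub measurable_snd))
  have hgm : Measurable g := hjm.lintegral_prod_right'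
  -- integral of g
  have hgint : ∫⁻ y, g y ∂μ = μ A * μ L := by
    rw [hg]
    rw [lintegral_lintegral_swap hjm.aemeasurable]
    have : ∀ x, ∫⁻ y, ind A x * ind L (y - x) ∂μ = ind A x * μ L := by
      intro x
      rw [lintegral_const_mul _ (hs1 x),
        lintegral_sub_right_eq_self (fun y => ind L y) x, lintegral_ind μ hL]
    simp_rw [this]
    rw [lintegral_mul_const _ hmA, lintegral_ind μ hA]
  -- support of g
  have hgM : ∀ y, y ∉ M → g y = 0 := by
    intro y hy
    rw [hg]
    simp only
    rw [lintegral_eq_zero_iff (hA2 y)]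
    refine Filter.Eventually.of_forall fun x => ?_
    simp only [Pi.zero_apply, ind]
    by_cases hx : x ∈ A
    · have hz : y - x ∉ L := by
        intro h
        have := hLM x hx _ h
        rw [add_sub_cancel] at this
        exact hy this
      simp [Set.indicator, hz]
    · simp [Set.indicator, hx]
  -- Cauchy-Schwarz
  have hCS : (μ A * μ L) ^ 2 ≤ (∫⁻ y, g y ^ 2 ∂μ) * μ M := by
    have h1 : ∫⁻ y, g y ∂μ = ∫⁻ y, (g * ind M) y ∂μ := by
      refine lintegral_congr fun y => ?_
      by_cases hy : y ∈ M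
      · simp [ind, Set.indicator, hy]
      · simp [ind, Set.indicator, hy, hgM y hy]
    have h2 := ENNReal.lintegral_mul_le_Lp_mul_Lq μ Real.HolderConjugate.two_two
      hgm.aemeasurable (measurable_ind hM).aemeasurable
    rw [← h1, hgint] at h2
    have h3 : ∫⁻ a, ind M a ^ (2 : ℝ) ∂μ = μ M := by
      rw [← lintegral_ind μ hM]
      refine lintegral_congr fun y => ?_
      by_cases hy : y ∈ M <;> simp [ind, Set.indicator, hy]
    rw [h3] at h2
    have h4 : ∀ u : ℝ≥0∞, (u ^ ((1 : ℝ) / 2)) ^ 2 = u := by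
      intro u
      rw [← ENNReal.rpow_natCast, ← ENNReal.rpow_mul]
      norm_num
    calc (μ A * μ L) ^ 2 ≤ ((∫⁻ a, g a ^ (2 : ℝ) ∂μ) ^ ((1 : ℝ) / 2) * μ M ^ ((1 : ℝ) / 2)) ^ 2 := by
          gcongr
      _ = (∫⁻ a, g a ^ (2 : ℝ) ∂μ) * μ M := by
          rw [mul_pow, h4, h4]
      _ = (∫⁻ y, g y ^ 2 ∂μ) * μ M := by
          congr 1
          refine lintegral_congr fun y => ?_
          norm_num
  -- the square
  set m : E → ℝ≥0∞ := fun t => μ (A ∩ (fun x => x - t) ⁻¹' L) with hm
  have hin : ∀ x', ∫⁻ y, g y * ind L (y - x') ∂μ = ∫⁻ k, ind L k * m (x' - k) ∂μ := by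
    intro x'
    have e1 : ∀ y, g y * ind L (y - x') = ∫⁻ x, ind A x * (ind L (y - x) * ind L (y - x')) ∂μ := by
      intro y
      rw [hg]
      simp only
      rw [← lintegral_mul_const _ (hA2 y)]
      refine lintegral_congr fun x => ?_
      rw [mul_assoc]
    simp_rw [e1]
    rw [lintegral_lintegral_swap ((hmA.comp measurable_snd).mul
      ((hmL.comp (measurable_fst.sub measurable_snd)).mul
        (hmL.comp (measurable_fst.sub_const x')))).aemeasurable]
    have e2 : ∀ x, ∫⁻ y, ind A x * (ind L (y - x) * ind L (y - x')) ∂μ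
        = ∫⁻ k, ind L k * (ind A x * ind L (x - (x' - k))) ∂μ := by
      intro x
      rw [← lintegral_add_right_eq_self (fun y => ind A x * (ind L (y - x) * ind L (y - x'))) x]
      refine lintegral_congr fun k => ?_
      rw [add_sub_cancel_right, show k + x - x' = x - (x' - k) by abel]
      ring
    simp_rw [e2]
    rw [lintegral_lintegral_swap]
    · refine lintegral_congr fun k => ?_
      rw [lintegral_const_mul _ (hA1 _), lintegral_ind_mul μ hA hL]
    · exact ((hmL.comp measurable_snd).mul ((hmA.comp measurable_fst).mul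
        (hmL.comp (measurable_fst.sub (measurable_const.sub measurable_snd))))).aemeasurable
  have hsq : ∫⁻ y, g y ^ 2 ∂μ = ∫⁻ x', ind A x' * ∫⁻ k, ind L k * m (x' - k) ∂μ ∂μ := by
    have e1 : ∀ y, g y ^ 2 = ∫⁻ x', ind A x' * (g y * ind L (y - x')) ∂μ := by
      intro y
      have : ∀ x', ind A x' * (g y * ind L (y - x')) = g y * (ind A x' * ind L (y - x')) := by
        intro x'; ring
      simp_rw [this]
      rw [lintegral_const_mul _ (hA2 y), sq]
    simp_rw [e1]
    rw [lintegral_lintegral_swap]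
    · refine lintegral_congr fun x' => ?_
      have hmm : Measurable (fun y => g y * ind L (y - x')) := hgm.mul (hs1 x')
      rw [lintegral_const_mul _ hmm, hin x']
    · exact ((hmA.comp measurable_snd).mul ((hgm.comp measurable_fst).mul
        (hmL.comp (measurable_fst.sub measurable_snd)))).aemeasurable
  -- bound
  have hMr0 : μ M ≠ 0 := by
    intro h0
    have := hcon 0
    rw [h0, mul_zero] at this
    -- A + L inside M so M has positive measure
    have h5 : μ A * μ L = 0 := by
      have := hCS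
      rw [h0, mul_zero] at this
      have h6 := le_antisymm this bot_le
      simpa using h6
    rw [h5] at this
    exact lt_irrefl _ this
  set c : ℝ≥0∞ := μ A * μ L / μ M with hc
  have hcf : c ≠ ∞ := by
    rw [hc]
    exact ENNReal.div_ne_top (ENNReal.mul_ne_top hAf hLf) hMr0
  have hmc : ∀ t, m t < c := by
    intro t
    rw [hc, ENNReal.lt_div_iff_mul_lt (Or.inl hMr0) (Or.inl hMf)]
    exact hcon t
  have hb1 : ∀ x', ∫⁻ k, ind L k * m (x' - k) ∂μ < c * μ L := by
    intro x'
    have e1 : ∫⁻ k, ind L k * m (x' - k) ∂μ = ∫⁻ k in L, m (x' - k) ∂μ := by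
      rw [← lintegral_indicator hL]
      refine lintegral_congr fun k => ?_
      by_cases hk : k ∈ L <;> simp [ind, Set.indicator, hk]
    rw [e1, ← setLIntegral_const]
    refine setLIntegral_strict_mono hL hL0 measurable_const ?_ ?_
    · refine ne_of_lt (lt_of_le_of_lt (setLIntegral_mono measurable_const
        (g := fun _ => c) (fun k _ => (hmc _).le)) ?_)
      rw [setLIntegral_const]
      exact ENNReal.mul_lt_top hcf.lt_top hLf.lt_top
    · exact Filter.Eventually.of_forall fun k _ => hmc _
  have hb2 : ∫⁻ y, g y ^ 2 ∂μ < c * μ L * μ A := by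
    rw [hsq]
    have e1 : ∫⁻ x', ind A x' * ∫⁻ k, ind L k * m (x' - k) ∂μ ∂μ
        = ∫⁻ x' in A, (∫⁻ k, ind L k * m (x' - k) ∂μ) ∂μ := by
      rw [← lintegral_indicator hA]
      refine lintegral_congr fun k => ?_
      by_cases hk : k ∈ A <;> simp [ind, Set.indicator, hk]
    rw [e1, ← setLIntegral_const]
    refine setLIntegral_strict_mono hA hA0 measurable_const ?_ ?_
    · refine ne_of_lt (lt_of_le_of_lt (setLIntegral_mono measurable_const
        (g := fun _ => c * μ L) (fun k _ => (hb1 _).le)) ?_)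
      rw [setLIntegral_const]
      exact ENNReal.mul_lt_top (ENNReal.mul_lt_top hcf.lt_top hLf.lt_top) hAf.lt_top
    · exact Filter.Eventually.of_forall fun k _ => hb1 _
  have hfin : (∫⁻ y, g y ^ 2 ∂μ) * μ M < (μ A * μ L) ^ 2 := by
    calc (∫⁻ y, g y ^ 2 ∂μ) * μ M < c * μ L * μ A * μ M :=
          ENNReal.mul_lt_mul_left hMr0 hMf hb2
      _ = (c * μ M) * (μ A * μ L) := by ring
      _ = (μ A * μ L) ^ 2 := by
          rw [hc, ENNReal.div_mul_cancel hMr0 hMf, sq]
  exact absurd hCS (not_le.mpr hfin)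

end

end Pool.Agent.H519R2.Homo
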