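import Mathlib
import Pool.Agent.H519R2.Homo.Heavy

set_option autoImplicit false
set_option linter.unusedSectionVars false

/-!
Covering a convex body by homothets of given ratios: `total volume ≥ (1 + o(1)) 2^d d log (d^2)`
is enough.
-/

namespace Pool.Agent.H519R2.Homo

open MeasureTheory Set Module
open scoped ENNReal Pointwise

section

variable {E : Type*} [NormedAddCommGroup E] [NormedSpace ℝ E] [FiniteDimensional ℝ E]
  [MeasurableSpace E] [BorelSpace E] (μ : Measure E) [μ.IsAddHaarMeasure]

/-- The translate of `l K` by `t`, as a preimage. -/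
def Tr (K : Set E) (t : E) (l : ℝ) : Set E := (fun x => x - t) ⁻¹' (l • K)

theorem mem_Tr {K : Set E} {t : E} {l : ℝ} {x : E} : x ∈ Tr K t l ↔ ∃ k ∈ K, x = t + l • k := by
  unfold Tr
  simp only [Set.mem_preimage, Set.mem_smul_set]
  constructor
  · rintro ⟨k, hk, h⟩
    exact ⟨k, hk, by rw [h]; abel⟩
  · rintro ⟨k, hk, h⟩
    exact ⟨k, hk, by rw [h]; abel⟩

theorem measurable_Tr {K : Set E} (hKc : IsCompact K) (t : E) (l : ℝ) :
    MeasurableSet (Tr K t l) :=
  (measurable_id.sub_const t) (hKc.smul l).isClosed.measurableSet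

theorem measure_Tr (K : Set E) (t : E) (l : ℝ) :
    μ (Tr K t l) = ENNReal.ofReal (|l| ^ finrank ℝ E) * μ K := by
  unfold Tr
  have : (fun x : E => x - t) = (fun x => x + -t) := by
    ext x; rw [sub_eq_add_neg]
  rw [this, measure_preimage_add_right, Measure.addHaar_smul, abs_pow]

theorem measureReal_Tr (K : Set E) (t : E) (l : ℝ) :
    μ.real (Tr K t l) = |l| ^ finrank ℝ E * μ.real K := by
  rw [measureReal_def, measure_Tr, ENNReal.toReal_mul, ENNReal.toReal_ofReal (by positivity)]
  rfl

/-- One greedy step. -/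
theorem greedy_step (K : Set E) (hK : Convex ℝ K) (hKc : IsCompact K)
    (hKi : (interior K).Nonempty) (m : ℝ) (hm : 0 < m) (A : Set E) (hA : MeasurableSet A)
    (hAm : A ⊆ Tr K 0 m) (l : ℝ) (hl : 0 < l) :
    ∃ t : E, μ.real (A \ Tr K t l) ≤ (1 - (l / (m + l)) ^ finrank ℝ E) * μ.real A := by
  have hμ0 : μ K ≠ 0 := fun h => by
    have := isOpen_interior.measure_pos μ hKi
    have h2 : μ (interior K) ≤ μ K := measure_mono interior_subset
    rw [h] at h2
    exact absurd this (not_lt.mpr h2)
  have hμf : μ K ≠ ⊤ := hKc.measure_lt_top.ne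
  have hKr : 0 < μ.real K := ENNReal.toReal_pos hμ0 hμf
  have hfinT : ∀ t r, μ (Tr K t r) ≠ ∞ := by
    intro t r
    rw [measure_Tr]
    exact ENNReal.mul_ne_top ENNReal.ofReal_ne_top hμf
  have hAf : μ A ≠ ∞ := ne_top_of_le_ne_top (hfinT 0 m) (measure_mono hAm)
  by_cases hA0 : μ A = 0
  · refine ⟨0, ?_⟩
    have h1 : μ.real A = 0 := by rw [measureReal_def, hA0]; rfl
    have h2 : μ.real (A \ Tr K 0 l) ≤ μ.real A := measureReal_mono Set.sdiff_subset hAf
    rw [h1] at h2 ⊢
    simpa using h2
  · obtain ⟨t, ht⟩ := heavy μ A (Tr K 0 l) (Tr K 0 (m + l)) hA (measurable_Tr hKc 0 l)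
      (measurable_Tr hKc 0 _) (by
        intro x hx y hy
        obtain ⟨k, hk, hxk⟩ := mem_Tr.mp (hAm hx)
        obtain ⟨k', hk', hyk⟩ := mem_Tr.mp hy
        rw [mem_Tr]
        refine ⟨(m / (m + l)) • k + (l / (m + l)) • k',
          hK hk hk' (by positivity) (by positivity) (by field_simp), ?_⟩
        rw [hxk, hyk, smul_add, smul_smul, smul_smul, mul_div_cancel₀ _ (by positivity),
          mul_div_cancel₀ _ (by positivity)]
        abel) (by
        rw [measure_Tr]
        refine mul_ne_zero ?_ hμ0
        rw [abs_of_pos hl]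
        simpa using pow_pos hl _) (hfinT _ _) hA0 hAf (hfinT _ _)
    refine ⟨t, ?_⟩
    have hpre : (fun x => x - t) ⁻¹' (Tr K 0 l) = Tr K t l := by
      ext x
      simp only [Set.mem_preimage]
      rw [mem_Tr, mem_Tr]
      constructor
      · rintro ⟨k, hk, h⟩
        exact ⟨k, hk, by rw [zero_add] at h; rw [← h]; abel⟩
      · rintro ⟨k, hk, h⟩
        exact ⟨k, hk, by rw [h]; abel⟩
    rw [hpre] at ht
    have hIf : μ (A ∩ Tr K t l) ≠ ∞ := ne_top_of_le_ne_top hAf (measure_mono Set.inter_subset_left)
    have ht' : μ.real A * μ.real (Tr K 0 l) ≤ μ.real (A ∩ Tr K t l) * μ.real (Tr K 0 (m + l)) := by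
      simp only [measureReal_def]
      rw [← ENNReal.toReal_mul, ← ENNReal.toReal_mul]
      exact ENNReal.toReal_mono (ENNReal.mul_ne_top hIf (hfinT _ _)) ht
    rw [measureReal_Tr, measureReal_Tr, abs_of_pos hl, abs_of_pos (by positivity : 0 < m + l)] at ht'
    have ht2 : (l / (m + l)) ^ finrank ℝ E * μ.real A ≤ μ.real (A ∩ Tr K t l) := by
      rw [div_pow, div_mul_eq_mul_div, div_le_iff₀ (by positivity)]
      refine le_of_mul_le_mul_right ?_ hKr
      linarith
    have h3 : μ.real (A ∩ Tr K t l) + μ.real (A \ Tr K t l) = μ.real A :=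
      measureReal_inter_add_sdiff (measurable_Tr hKc t l) hAf
    linarith

/-- Stage A: shrunken copies leave a small part uncovered. -/
theorem stageA (K : Set E) (hK : Convex ℝ K) (hKc : IsCompact K)
    (hKi : (interior K).Nonempty) (m θ : ℝ) (hm : 0 < m) (hθ0 : 0 < θ) (hθ : θ ≤ 1)
    {ι : Type*} [DecidableEq ι] (lam : ι → ℝ) (s : Finset ι)
    (hlam : ∀ i ∈ s, 0 < lam i ∧ lam i ≤ 1) :
    ∃ x : ι → E, μ.real (Tr K 0 m \ ⋃ i ∈ s, Tr K (x i) (θ * lam i)) ≤
      Real.exp (-((θ / (m + θ)) ^ finrank ℝ E * ∑ i ∈ s, lam i ^ finrank ℝ E))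
        * μ.real (Tr K 0 m) := by
  induction s using Finset.induction_on with
  | empty => exact ⟨fun _ => 0, by simp⟩
  | insert a s ha ih =>
    obtain ⟨x, hx⟩ := ih (fun i hi => hlam i (Finset.mem_insert_of_mem hi))
    obtain ⟨h0, h1⟩ := hlam a (Finset.mem_insert_self a s)
    set A := Tr K 0 m \ ⋃ i ∈ s, Tr K (x i) (θ * lam i) with hA
    have hAm : MeasurableSet A :=
      (measurable_Tr hKc 0 m).diff (Finset.measurableSet_biUnion _ fun i _ => measurable_Tr hKc _ _)
    obtain ⟨t, ht⟩ := greedy_step μ K hK hKc hKi m hm A hAm Set.sdiff_subset (θ * lam a)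
      (by positivity)
    refine ⟨Function.update x a t, ?_⟩
    have hset : Tr K 0 m \ ⋃ i ∈ insert a s, Tr K (Function.update x a t i) (θ * lam i)
        = A \ Tr K t (θ * lam a) := by
      rw [Finset.set_biUnion_insert, Function.update_self]
      have : ⋃ i ∈ s, Tr K (Function.update x a t i) (θ * lam i)
          = ⋃ i ∈ s, Tr K (x i) (θ * lam i) := by
        refine Set.iUnion₂_congr fun i hi => ?_
        rw [Function.update_of_ne]
        rintro rfl
        exact ha hi
      rw [this, hA, Set.sdiff_sdiff, Set.union_comm]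
    rw [hset]
    refine ht.trans ?_
    have hfrac : (θ / (m + θ)) ^ finrank ℝ E * lam a ^ finrank ℝ E ≤
        (θ * lam a / (m + θ * lam a)) ^ finrank ℝ E := by
      rw [← mul_pow]
      refine pow_le_pow_left₀ (by positivity) ?_ _
      rw [div_mul_eq_mul_div]
      exact div_le_div_of_nonneg_left (by positivity) (by positivity) (by nlinarith)
    have hexp : 1 - (θ * lam a / (m + θ * lam a)) ^ finrank ℝ E ≤
        Real.exp (-((θ / (m + θ)) ^ finrank ℝ E * lam a ^ finrank ℝ E)) := by
      have := Real.add_one_le_exp (-((θ / (m + θ)) ^ finrank ℝ E * lam a ^ finrank ℝ E))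
      linarith
    calc (1 - (θ * lam a / (m + θ * lam a)) ^ finrank ℝ E) * μ.real A
        ≤ Real.exp (-((θ / (m + θ)) ^ finrank ℝ E * lam a ^ finrank ℝ E)) * μ.real A := by
          gcongr
      _ ≤ Real.exp (-((θ / (m + θ)) ^ finrank ℝ E * lam a ^ finrank ℝ E)) *
          (Real.exp (-((θ / (m + θ)) ^ finrank ℝ E * ∑ i ∈ s, lam i ^ finrank ℝ E))
            * μ.real (Tr K 0 m)) := by gcongr
      _ = _ := by
          rw [← mul_assoc, ← Real.exp_add, Finset.sum_insert ha]
          congr 2
          ring

/-- Splitting off the large ratios. -/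
theorem split_large {ι : Type*} [DecidableEq ι] (lam : ι → ℝ) (d : ℕ) (hd : d ≠ 0) (τ : ℝ)
    (s : Finset ι) (hlam : ∀ i ∈ s, 0 < lam i ∧ lam i < 1) (hs : τ ≤ ∑ i ∈ s, lam i ^ d)
    (hτ : 0 < τ) :
    ∃ A ⊆ s, (∀ i ∈ A, ∀ j ∈ s \ A, lam j ≤ lam i) ∧ τ ≤ ∑ i ∈ A, lam i ^ d ∧
      ∑ i ∈ A, lam i ^ d < τ + 1 := by
  induction s using Finset.induction_on_min_value lam with
  | empty => simp at hs; linarith
  | insert a s ha hmin ih =>
    by_cases hc : τ ≤ ∑ i ∈ s, lam i ^ d
    · obtain ⟨A, hAs, hA1, hA2, hA3⟩ := ih (fun i hi => hlam i (Finset.mem_insert_of_mem hi)) hc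
      refine ⟨A, hAs.trans (Finset.subset_insert _ _), ?_, hA2, hA3⟩
      intro i hi j hj
      rw [Finset.mem_sdiff, Finset.mem_insert] at hj
      rcases hj with ⟨rfl | hj, hjA⟩
      · exact hmin i (hAs hi)
      · exact hA1 i hi j (Finset.mem_sdiff.mpr ⟨hj, hjA⟩)
    · push Not at hc
      refine ⟨insert a s, subset_rfl, ?_, hs, ?_⟩
      · intro i _ j hj
        simp at hj
      · rw [Finset.sum_insert ha]
        obtain ⟨h0, h1⟩ := hlam a (Finset.mem_insert_self a s)
        have : lam a ^ d < 1 := pow_lt_one₀ h0.le h1 hd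
        linarith

/-- Stage B: put the small copies at uncovered points. -/
theorem stageB (K : Set E) (hK : Convex ℝ K) (h0K : (0 : E) ∈ K)
    (hR : ∀ x ∈ K, ∃ y ∈ K, -x = (finrank ℝ E : ℝ) • y) (δ : ℝ) (hδ : 0 < δ)
    (hδd : δ * (finrank ℝ E + 1) ≤ 1)
    {ι : Type*} [DecidableEq ι] (lam : ι → ℝ) (U : Set E) (s : Finset ι)
    (hlam : ∀ i ∈ s, 0 < lam i) :
    ∃ y : ι → E, (K ⊆ U ∪ ⋃ i ∈ s, Tr K (y i) (lam i)) ∨
      ((∀ i ∈ s, y i ∈ K ∧ y i ∉ U) ∧
        (s : Set ι).PairwiseDisjoint (fun i => Tr K (y i) (-(δ * lam i)))) := by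
  induction s using Finset.induction_on_min_value lam with
  | empty => exact ⟨fun _ => 0, Or.inr ⟨by simp, by simp⟩⟩
  | insert a s ha hmin ih =>
    obtain ⟨y, hy⟩ := ih (fun i hi => hlam i (Finset.mem_insert_of_mem hi))
    rcases hy with hy | ⟨hy1, hy2⟩
    · refine ⟨y, Or.inl (hy.trans ?_)⟩
      refine Set.union_subset_union_right _ ?_
      exact Set.biUnion_subset_biUnion_left (Finset.coe_subset.mpr (Finset.subset_insert a s))
    · by_cases hcov : K ⊆ U ∪ ⋃ i ∈ s, Tr K (y i) (lam i)
      · refine ⟨y, Or.inl (hcov.trans ?_)⟩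
        refine Set.union_subset_union_right _ ?_
        exact Set.biUnion_subset_biUnion_left (Finset.coe_subset.mpr (Finset.subset_insert a s))
      · rw [Set.not_subset] at hcov
        obtain ⟨z, hzK, hz⟩ := hcov
        rw [Set.mem_union, not_or] at hz
        obtain ⟨hzU, hz2⟩ := hz
        rw [Set.mem_iUnion₂] at hz2
        push Not at hz2
        have hup : ∀ i ∈ s, Function.update y a z i = y i := by
          intro i hi
          rw [Function.update_of_ne]
          rintro rfl
          exact ha hi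
        refine ⟨Function.update y a z, Or.inr ⟨?_, ?_⟩⟩
        · intro i hi
          rcases Finset.mem_insert.mp hi with rfl | hi
          · rw [Function.update_self]; exact ⟨hzK, hzU⟩
          · rw [hup i hi]; exact hy1 i hi
        · rw [Finset.coe_insert, Set.pairwiseDisjoint_insert_of_notMem (by exact_mod_cast ha)]
          constructor
          · intro i hi j hj hij
            have := hy2 hi hj hij
            simp only [Function.onFun] at this ⊢
            rw [hup i (by exact_mod_cast hi), hup j (by exact_mod_cast hj)]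
            exact this
          · intro i hi
            have hi' : i ∈ s := by exact_mod_cast hi
            rw [Function.update_self, hup i hi', Set.disjoint_left]
            intro w hw1 hw2
            obtain ⟨k, hk, hk'⟩ := mem_Tr.mp hw1
            obtain ⟨j, hj, hj'⟩ := mem_Tr.mp hw2
            obtain ⟨j', hjK, hj2⟩ := hR j hj
            have hla : 0 < lam a := hlam a (Finset.mem_insert_self a s)
            have hli : 0 < lam i := hlam i (Finset.mem_insert_of_mem hi')
            refine hz2 i hi' (mem_Tr.mpr ?_)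
            -- z = y i + δ lam a k + δ lam i d j'
            have hz3 : z = y i + (δ * lam a) • k + (δ * lam i * finrank ℝ E) • j' := by
              have e1 : z = w + (δ * lam a) • k := by rw [hk', neg_smul]; abel
              rw [e1, hj', neg_smul, ← smul_neg, hj2, smul_smul]
              abel
            have hd0 : (0 : ℝ) ≤ finrank ℝ E := by positivity
            have hmin' := hmin i hi'
            have hsum := hK.sum_mem (t := (Finset.univ : Finset (Fin 3)))
              (w := ![δ * lam a / lam i, δ * finrank ℝ E,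
                1 - δ * lam a / lam i - δ * finrank ℝ E]) (z := ![k, j', 0])
              (by
                intro q _
                fin_cases q
                · simp; positivity
                · simp; positivity
                · simp
                  have : δ * lam a / lam i ≤ δ := by
                    rw [div_le_iff₀ hli]
                    nlinarith
                  nlinarith)
              (by simp [Fin.sum_univ_three])
              (by intro q _; fin_cases q <;> simp [hk, hjK, h0K])
            refine ⟨_, hsum, ?_⟩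
            rw [hz3]
            simp only [Fin.sum_univ_three, Matrix.cons_val_zero, Matrix.cons_val_one,
              Matrix.cons_val_two, Matrix.tail_cons, Matrix.head_cons, smul_zero, add_zero,
              smul_add, smul_smul]
            rw [add_assoc]
            congr 2
            · rw [mul_div_cancel₀ _ hli.ne']
            · rw [show lam i * (δ * finrank ℝ E) = δ * lam i * finrank ℝ E by ring]

end

end Pool.Agent.H519R2.Homo
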