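import Mathlib
import Pool.Agent.H519R2.Homo.Cover

set_option autoImplicit false
set_option linter.unusedSectionVars false

namespace Pool.Agent.H519R2.Homo

open MeasureTheory Set Module
open scoped ENNReal Pointwise

section

variable {E : Type*} [NormedAddCommGroup E] [NormedSpace ℝ E] [FiniteDimensional ℝ E]
  [MeasurableSpace E] [BorelSpace E]

/-- The covering theorem for a body in good position (`-K ⊆ d K`), all ratios below one. -/
theorem cover_good (K : Set E) (hK : Convex ℝ K) (hKc : IsCompact K)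
    (hKi : (interior K).Nonempty) (h0K : (0 : E) ∈ K)
    (hR : ∀ x ∈ K, ∃ y ∈ K, -x = (finrank ℝ E : ℝ) • y) (hd : 1 ≤ finrank ℝ E)
    (δ : ℝ) (hδ : 0 < δ) (hδd : δ * (finrank ℝ E + 1) ≤ 1)
    {ι : Type*} [Fintype ι] (lam : ι → ℝ) (hlam : ∀ i, 0 < lam i ∧ lam i < 1)
    (τ : ℝ) (hτ0 : 0 < τ)
    (hτ : Real.exp (-(((1 - δ) / ((1 + δ * finrank ℝ E) + (1 - δ))) ^ finrank ℝ E * τ))
      * (1 + δ * finrank ℝ E) ^ finrank ℝ E ≤ δ ^ finrank ℝ E)
    (hV : τ + 2 ≤ ∑ i, lam i ^ finrank ℝ E) :
    ∃ x : ι → E, K ⊆ ⋃ i, Tr K (x i) (lam i) := by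
  classical
  set μ : Measure E := Measure.addHaar with hμdef
  set d := finrank ℝ E with hdd
  have hd1 : (1 : ℝ) ≤ d := by exact_mod_cast hd
  have hδ1 : δ ≤ 1 / 2 := by nlinarith
  have hμ0 : μ K ≠ 0 := fun h => by
    have := isOpen_interior.measure_pos μ hKi
    have h2 : μ (interior K) ≤ μ K := measure_mono interior_subset
    rw [h] at h2
    exact absurd this (not_lt.mpr h2)
  have hμf : μ K ≠ ⊤ := hKc.measure_lt_top.ne
  have hKr : 0 < μ.real K := ENNReal.toReal_pos hμ0 hμf
  have hfinT : ∀ t r, μ (Tr K t r) ≠ ∞ := by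
    intro t r
    rw [measure_Tr]
    exact ENNReal.mul_ne_top ENNReal.ofReal_ne_top hμf
  set m := 1 + δ * (d : ℝ) with hm
  have hm0 : 0 < m := by positivity
  obtain ⟨A, -, hA1, hA2, hA3⟩ := split_large lam d (by omega) τ Finset.univ
    (fun i _ => hlam i) (by linarith) hτ0
  obtain ⟨x, hx⟩ := stageA μ K hK hKc hKi m (1 - δ) hm0 (by linarith) (by linarith) lam A
    (fun i _ => ⟨(hlam i).1, (hlam i).2.le⟩)
  obtain ⟨y, hy⟩ := stageB K hK h0K hR δ hδ hδd lam (⋃ i ∈ A, Tr K (x i) (lam i))
    (Finset.univ \ A) (fun i _ => (hlam i).1)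
  rcases hy with hy | ⟨hy1, hy2⟩
  · refine ⟨fun i => if i ∈ A then x i else y i, hy.trans ?_⟩
    intro w hw
    rw [Set.mem_union, Set.mem_iUnion₂, Set.mem_iUnion₂] at hw
    rw [Set.mem_iUnion]
    rcases hw with ⟨i, hi, hw⟩ | ⟨i, hi, hw⟩
    · exact ⟨i, by simp only [if_pos hi]; exact hw⟩
    · rw [Finset.mem_sdiff] at hi
      exact ⟨i, by simp only [if_neg hi.2]; exact hw⟩
  · exfalso
    set W : ι → Set E := fun j => Tr K (y j) (-(δ * lam j)) with hW
    have hsub : ∀ j ∈ Finset.univ \ A,
        W j ⊆ Tr K 0 m \ ⋃ i ∈ A, Tr K (x i) ((1 - δ) * lam i) := by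
      intro j hj w hw
      obtain ⟨hyK, hyU⟩ := hy1 j hj
      obtain ⟨k, hk, hk'⟩ := mem_Tr.mp hw
      obtain ⟨hj0, hj1⟩ := hlam j
      constructor
      · obtain ⟨k', hk'K, hkk⟩ := hR k hk
        rw [mem_Tr]
        have hsum := hK.sum_mem (t := (Finset.univ : Finset (Fin 3)))
          (w := ![1 / m, δ * lam j * d / m, 1 - 1 / m - δ * lam j * d / m]) (z := ![y j, k', 0])
          (by
            intro q _
            fin_cases q
            · simp; positivity
            · simp; positivity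
            · simp
              have : m⁻¹ + δ * lam j * d / m ≤ 1 := by
                rw [inv_eq_one_div, ← add_div, div_le_one hm0, hm]
                have : δ * lam j * d ≤ δ * 1 * d := by gcongr
                linarith
              linarith)
          (by simp [Fin.sum_univ_three])
          (by intro q _; fin_cases q <;> simp [hk'K, hyK, h0K])
        refine ⟨_, hsum, ?_⟩
        simp only [Fin.sum_univ_three, Matrix.cons_val_zero, Matrix.cons_val_one,
          Matrix.cons_val_two, Matrix.tail_cons, Matrix.head_cons, smul_zero, add_zero,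
          smul_add, smul_smul, zero_add]
        rw [mul_div_cancel₀ _ hm0.ne', mul_div_cancel₀ _ hm0.ne', one_smul, hk', neg_smul,
          ← smul_neg, hkk, smul_smul]
      · rw [Set.mem_iUnion₂]
        rintro ⟨i, hi, hwi⟩
        obtain ⟨k₂, hk₂, hk₂'⟩ := mem_Tr.mp hwi
        obtain ⟨hi0, hi1⟩ := hlam i
        have hji := hA1 i hi j hj
        refine hyU (Set.mem_iUnion₂.mpr ⟨i, hi, mem_Tr.mpr ?_⟩)
        have hsum := hK.sum_mem (t := (Finset.univ : Finset (Fin 3)))
          (w := ![1 - δ, δ * lam j / lam i, δ - δ * lam j / lam i]) (z := ![k₂, k, 0])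
          (by
            intro q _
            fin_cases q
            · simp; linarith
            · simp; positivity
            · simp
              rw [div_le_iff₀ hi0]
              nlinarith)
          (by simp [Fin.sum_univ_three])
          (by intro q _; fin_cases q <;> simp [hk, hk₂, h0K])
        refine ⟨_, hsum, ?_⟩
        simp only [Fin.sum_univ_three, Matrix.cons_val_zero, Matrix.cons_val_one,
          Matrix.cons_val_two, Matrix.tail_cons, Matrix.head_cons, smul_zero, add_zero,
          smul_add, smul_smul]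
        have e1 : y j = w + (δ * lam j) • k := by rw [hk', neg_smul]; abel
        rw [e1, hk₂', mul_div_cancel₀ _ hi0.ne', mul_comm (lam i) (1 - δ), add_assoc]
    have hdisj : μ.real (⋃ j ∈ Finset.univ \ A, W j) = ∑ j ∈ Finset.univ \ A, μ.real (W j) := by
      refine measureReal_biUnion_finset hy2 (fun j _ => measurable_Tr hKc _ _) ?_
      intro j _
      exact hfinT _ _
    have hle : μ.real (⋃ j ∈ Finset.univ \ A, W j) ≤
        μ.real (Tr K 0 m \ ⋃ i ∈ A, Tr K (x i) ((1 - δ) * lam i)) := by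
      refine measureReal_mono (Set.iUnion₂_subset hsub) ?_
      exact ne_top_of_le_ne_top (hfinT 0 m) (measure_mono Set.sdiff_subset)
    have hWm : ∀ j, μ.real (W j) = δ ^ d * lam j ^ d * μ.real K := by
      intro j
      rw [hW]
      simp only
      rw [measureReal_Tr, abs_neg, abs_of_pos (mul_pos hδ (hlam j).1), mul_pow]
    rw [hdisj] at hle
    simp_rw [hWm] at hle
    rw [← Finset.sum_mul, ← Finset.mul_sum] at hle
    have h3 := hle.trans hx
    rw [measureReal_Tr, abs_of_pos hm0] at h3
    have hκ : 0 ≤ ((1 - δ) / (m + (1 - δ))) ^ d := by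
      have : 0 < 1 - δ := by linarith
      positivity
    have h4 : Real.exp (-(((1 - δ) / (m + (1 - δ))) ^ d * ∑ i ∈ A, lam i ^ d)) ≤
        Real.exp (-(((1 - δ) / (m + (1 - δ))) ^ d * τ)) := by
      apply Real.exp_le_exp.mpr
      have := mul_le_mul_of_nonneg_left hA2 hκ
      linarith
    have h5 : δ ^ d * ∑ j ∈ Finset.univ \ A, lam j ^ d ≤ δ ^ d := by
      have h6 : δ ^ d * (∑ j ∈ Finset.univ \ A, lam j ^ d) * μ.real K ≤ δ ^ d * μ.real K := by
        refine h3.trans ?_
        rw [← mul_assoc]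
        refine mul_le_mul_of_nonneg_right ?_ hKr.le
        refine (mul_le_mul_of_nonneg_right h4 (by positivity)).trans hτ
      exact le_of_mul_le_mul_right h6 hKr
    have h7 : ∑ j ∈ Finset.univ \ A, lam j ^ d ≤ 1 := by
      have : 0 < δ ^ d := by positivity
      nlinarith
    have h8 : ∑ j ∈ Finset.univ \ A, lam j ^ d + ∑ i ∈ A, lam i ^ d = ∑ i, lam i ^ d :=
      Finset.sum_sdiff (Finset.subset_univ A)
    linarith

end

end Pool.Agent.H519R2.Homo
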