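import Mathlib

set_option autoImplicit false

/-! Minkowski-Radon: a convex body contains a translate of `-K / d` (proof by Helly's theorem,
copied from helper2's file `H2R2/Cov2.lean` to keep this development self-contained). -/

namespace Pool.Agent.H519R2.Homo

open Module
open scoped Pointwise

variable {E : Type*} [NormedAddCommGroup E] [NormedSpace ℝ E] [FiniteDimensional ℝ E]

/-- A convex body contains a translate of `-K / d` (Minkowski, Radon), by Helly's theorem. -/
theorem exists_reflect (K : Set E) (hK : Convex ℝ K) (hKc : IsCompact K)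
    (hKi : (interior K).Nonempty) (hd : 1 ≤ finrank ℝ E) :
    ∃ c : E, ∀ x ∈ K, ∃ y ∈ K, -x = (finrank ℝ E : ℝ) • y - ((finrank ℝ E : ℝ) + 1) • c := by
  classical
  set d := finrank ℝ E with hdd
  have hd0 : (0 : ℝ) < d := by exact_mod_cast hd
  have : Nontrivial E := Module.nontrivial_of_finrank_pos (R := ℝ) (by omega)
  have hinf : K.Infinite := by
    obtain ⟨x, hx⟩ := hKi
    have : (nhdsWithin x {x}ᶜ).NeBot := Module.punctured_nhds_neBot ℝ E x
    exact infinite_of_mem_nhds x (mem_interior_iff_mem_nhds.mp hx)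
  have : Infinite K := hinf.to_subtype
  let F : K → Set E := fun x => (fun y => ((d : ℝ) + 1)⁻¹ • ((x : E) + (d : ℝ) • y)) '' K
  have hne : (⋂ i, F i).Nonempty := by
    refine Convex.helly_theorem_compact (𝕜 := ℝ) (F := F) ?_ ?_ ?_ ?_
    · rw [ENat.card_eq_top_of_infinite]; exact le_top
    · intro x
      have h1 : F x = ((d : ℝ) + 1)⁻¹ • ((fun y => (x : E) + y) '' ((d : ℝ) • K)) := by
        ext z
        simp only [F, Set.mem_image, Set.mem_smul_set]
        constructor
        · rintro ⟨y, hy, rfl⟩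
          exact ⟨_, ⟨_, ⟨y, hy, rfl⟩, rfl⟩, rfl⟩
        · rintro ⟨_, ⟨_, ⟨y, hy, rfl⟩, rfl⟩, rfl⟩
          exact ⟨y, hy, rfl⟩
      rw [h1]
      exact ((hK.smul _).translate _).smul _
    · intro x
      refine hKc.image ?_
      fun_prop
    · intro I hI
      refine ⟨((d : ℝ) + 1)⁻¹ • ∑ i ∈ I, (i : E), ?_⟩
      rw [Set.mem_iInter₂]
      intro j hj
      refine ⟨∑ i ∈ I.erase j, (d : ℝ)⁻¹ • (i : E), ?_, ?_⟩
      · refine hK.sum_mem (fun _ _ => by positivity) ?_ (fun i _ => i.2)
        rw [Finset.sum_const, Finset.card_erase_of_mem hj, hI, Nat.add_sub_cancel, nsmul_eq_mul]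
        exact mul_inv_cancel₀ hd0.ne'
      · simp only
        congr 1
        rw [← Finset.smul_sum, smul_smul, mul_inv_cancel₀ hd0.ne', one_smul,
          Finset.add_sum_erase I (fun i : K => (i : E)) hj]
  obtain ⟨c, hc⟩ := hne
  refine ⟨c, fun x hx => ?_⟩
  rw [Set.mem_iInter] at hc
  obtain ⟨y, hy, hyc⟩ := hc ⟨x, hx⟩
  refine ⟨y, hy, ?_⟩
  simp only at hyc
  rw [← hyc, smul_smul, mul_inv_cancel₀ (by positivity : (d : ℝ) + 1 ≠ 0), one_smul]
  abel


end Pool.Agent.H519R2.Homo
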