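import Mathlib
import Pool.Agent.H519R2.Homo.Main
import Pool.Agent.H519R2.Homo.Reflect

set_option autoImplicit false

/-!
Covering a convex body by homothets of prescribed total volume: definitions and final theorems.
-/

namespace Pool.Agent.H519R2.Homo

open MeasureTheory Set Module Filter Topology
open scoped ENNReal Pointwise

/-- The ratios `lam 0, ..., lam (N - 1)` cover `K`: there are translation vectors `x i` with
`K ⊆ ⋃ i, (lam i • K + x i)`. -/
def Covers {n : ℕ} (K : Set (EuclideanSpace ℝ (Fin n))) {N : ℕ} (lam : Fin N → ℝ) : Prop :=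
  ∃ x : Fin N → EuclideanSpace ℝ (Fin n), K ⊆ ⋃ i, (fun k => lam i • k + x i) '' K

/-- Every finite family of positive ratios with `∑ lam i ^ n ≥ t` covers `K`. -/
def Enough {n : ℕ} (K : Set (EuclideanSpace ℝ (Fin n))) (t : ℝ) : Prop :=
  0 < t ∧ ∀ (N : ℕ) (lam : Fin N → ℝ), (∀ i, 0 < lam i) → t ≤ ∑ i, lam i ^ n → Covers K lam

/-- `f_n(K)`. -/
noncomputable def f {n : ℕ} (K : Set (EuclideanSpace ℝ (Fin n))) : ℝ := sInf {t | Enough K t}

/-- A convex body of volume one. -/
def UnitBody {n : ℕ} (K : Set (EuclideanSpace ℝ (Fin n))) : Prop :=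
  Convex ℝ K ∧ IsCompact K ∧ (interior K).Nonempty ∧ volume K = 1

/-- The largest value of `f_n(K)` over all convex bodies of volume one. -/
noncomputable def F (n : ℕ) : ℝ :=
  sSup {r | ∃ K : Set (EuclideanSpace ℝ (Fin n)), UnitBody K ∧ r = f K}

/-- The bound `3 · 2^n · n · log (n² + n)`. -/
noncomputable def bd (n : ℕ) : ℝ := 3 * 2 ^ n * (n * Real.log ((n : ℝ) ^ 2 + n))

theorem log_bd (n : ℕ) (hn : 2 ≤ n) : 3 ≤ n * Real.log ((n : ℝ) ^ 2 + n) := by
  have hn' : (2 : ℝ) ≤ n := by exact_mod_cast hn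
  have h1 : (3 : ℝ) / 2 ≤ Real.log ((n : ℝ) ^ 2 + n) := by
    rw [Real.le_log_iff_exp_le (by positivity)]
    have h2 : Real.exp (3 / 2) ^ 2 ≤ 6 ^ 2 := by
      rw [← Real.exp_nat_mul]
      have h3 : Real.exp 3 = Real.exp 1 ^ 3 := by rw [← Real.exp_nat_mul]; norm_num
      have h4 : ((2 : ℕ) : ℝ) * (3 / 2) = 3 := by norm_num
      rw [h4, h3]
      have h5 := Real.exp_one_lt_d9
      have h6 := Real.exp_pos 1
      calc Real.exp 1 ^ 3 ≤ 3 ^ 3 := by gcongr; linarith
        _ ≤ 6 ^ 2 := by norm_num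
    have h7 : Real.exp (3 / 2) ≤ 6 := by
      exact le_of_sq_le_sq h2 (by norm_num)
    nlinarith
  nlinarith

/-- **Upper bound.** -/
theorem covers_of_le (n : ℕ) (hn : 2 ≤ n) (K : Set (EuclideanSpace ℝ (Fin n)))
    (hK : Convex ℝ K) (hKc : IsCompact K) (hKi : (interior K).Nonempty)
    (N : ℕ) (lam : Fin N → ℝ) (hlam : ∀ i, 0 < lam i) (hV : bd n ≤ ∑ i, lam i ^ n) :
    Covers K lam := by
  classical
  have hn' : (2 : ℝ) ≤ n := by exact_mod_cast hn
  have hfr : finrank ℝ (EuclideanSpace ℝ (Fin n)) = n := by simp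
  by_cases hbig : ∃ i, 1 ≤ lam i
  · obtain ⟨i, hi⟩ := hbig
    obtain ⟨z, hz⟩ := hKi
    have hzK := interior_subset hz
    refine ⟨fun _ => (1 - lam i) • z, fun y hy => ?_⟩
    rw [Set.mem_iUnion]
    have hi0 := hlam i
    refine ⟨i, (1 / lam i) • y + (1 - 1 / lam i) • z, ?_, ?_⟩
    · refine hK hy hzK (by positivity) ?_ (by ring)
      rw [sub_nonneg, div_le_one hi0]
      exact hi
    · simp only [smul_add, smul_smul]
      rw [mul_one_div_cancel hi0.ne', one_smul, add_assoc, ← add_smul]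
      have : lam i * (1 - 1 / lam i) + (1 - lam i) = 0 := by field_simp; ring
      rw [this, zero_smul, add_zero]
  · push Not at hbig
    obtain ⟨c, hc⟩ := exists_reflect K hK hKc hKi (by rw [hfr]; omega)
    rw [hfr] at hc
    set K0 : Set (EuclideanSpace ℝ (Fin n)) := (fun x => x - c) '' K with hK0
    have hK0eq : K0 = (fun x => -c + x) '' K := by
      rw [hK0]
      congr 1
      ext x
      simp [sub_eq_add_neg, add_comm]
    have hK0conv : Convex ℝ K0 := by rw [hK0eq]; exact hK.translate _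
    have hK0c : IsCompact K0 := hKc.image (by fun_prop)
    have hK0i : (interior K0).Nonempty := by
      obtain ⟨z, hz⟩ := hKi
      refine ⟨z - c, ?_⟩
      rw [mem_interior]
      refine ⟨(fun x => x + c) ⁻¹' interior K, ?_, isOpen_interior.preimage (by fun_prop), ?_⟩
      · intro x hx
        exact ⟨x + c, interior_subset hx, by simp⟩
      · simpa using hz
    have hR : ∀ x ∈ K0, ∃ y ∈ K0, -x = (finrank ℝ (EuclideanSpace ℝ (Fin n)) : ℝ) • y := by
      rintro _ ⟨x, hx, rfl⟩
      obtain ⟨y, hy, hxy⟩ := hc x hx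
      refine ⟨y - c, ⟨y, hy, rfl⟩, ?_⟩
      rw [hfr]
      simp only [neg_sub]
      rw [sub_eq_add_neg, hxy, add_smul, one_smul, smul_sub]
      abel
    have h0K : (0 : EuclideanSpace ℝ (Fin n)) ∈ K0 := by
      obtain ⟨x, hx⟩ := hK0i
      have hxK := interior_subset hx
      obtain ⟨y, hy, hxy⟩ := hR x hxK
      rw [hfr] at hxy
      have := hK0conv hxK hy (show (0 : ℝ) ≤ 1 / (n + 1) by positivity)
        (show (0 : ℝ) ≤ n / (n + 1) by positivity) (by field_simp; ring)
      have h2 : (1 / ((n : ℝ) + 1)) • x + ((n : ℝ) / (n + 1)) • y = 0 := by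
        have h3 : ((n : ℝ) / (n + 1)) • y = (1 / ((n : ℝ) + 1)) • ((n : ℝ) • y) := by
          rw [smul_smul]; congr 1; ring
        rw [h3, ← hxy, ← smul_add, add_neg_cancel, smul_zero]
      rw [h2] at this
      exact this
    set δ : ℝ := 1 / (n : ℝ) ^ 2 with hδ
    set Lg := Real.log ((n : ℝ) ^ 2 + n) with hLg
    set τ : ℝ := Real.exp 1 * 2 ^ n * (n * Lg) with hτd
    have hlog := log_bd n hn
    rw [← hLg] at hlog
    have hnL : 0 < (n : ℝ) * Lg := by linarith
    have hτ0 : 0 < τ := by positivity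
    have hmain := cover_good K0 hK0conv hK0c hK0i h0K hR (by rw [hfr]; omega) δ (by positivity)
      (by
        rw [hfr, hδ, div_mul_eq_mul_div, div_le_one (by positivity)]
        nlinarith) lam (fun i => ⟨hlam i, hbig i⟩) τ hτ0
      (by
        rw [hfr]
        have e1 : (1 - δ) / ((1 + δ * n) + (1 - δ)) = ((n : ℝ) - 1) / (2 * n - 1) := by
          rw [hδ]
          have h1 : (n : ℝ) ≠ 0 := by positivity
          have h2 : (2 * (n : ℝ) - 1) ≠ 0 := by linarith
          have h3 : (1 + 1 / (n : ℝ) ^ 2 * n) + (1 - 1 / (n : ℝ) ^ 2) ≠ 0 := by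
            have : 1 / (n : ℝ) ^ 2 ≤ 1 := by
              rw [div_le_one (by positivity)]; nlinarith
            have : 0 < 1 / (n : ℝ) ^ 2 * n := by positivity
            linarith
          rw [div_eq_div_iff h3 h2]
          field_simp
          ring
        have e2 : 1 + δ * n = ((n : ℝ) ^ 2 + n) * δ := by
          rw [hδ]
          field_simp
        rw [e1]
        have hκ : 1 ≤ (((n : ℝ) - 1) / (2 * n - 1)) ^ n * (Real.exp 1 * 2 ^ n) := by
          have hn1 : (0 : ℝ) < n - 1 := by linarith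
          have e3 : ((n : ℝ) - 1) / (2 * n - 1) = ((2 : ℝ) * (1 + 1 / (2 * ((n : ℝ) - 1))))⁻¹ := by
            have h5 : (n : ℝ) - 1 ≠ 0 := hn1.ne'
            have h6 : (2 : ℝ) * n - 1 ≠ 0 := by linarith
            have h7 : (2 : ℝ) * (1 + 1 / (2 * ((n : ℝ) - 1))) = (2 * n - 1) / (n - 1) := by
              field_simp
              ring
            rw [h7, inv_div]
          rw [e3, inv_pow, mul_pow, mul_inv]
          have h1 : (1 + 1 / (2 * ((n : ℝ) - 1))) ^ n ≤ Real.exp 1 := by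
            have h1 : (1 + 1 / (2 * ((n : ℝ) - 1))) ≤ Real.exp (1 / (2 * (n - 1))) := by
              have := Real.add_one_le_exp (1 / (2 * ((n : ℝ) - 1)))
              linarith
            calc (1 + 1 / (2 * ((n : ℝ) - 1))) ^ n ≤ Real.exp (1 / (2 * (n - 1))) ^ n := by
                  gcongr
              _ = Real.exp (n * (1 / (2 * (n - 1)))) := by rw [← Real.exp_nat_mul]
              _ ≤ Real.exp 1 := by
                  apply Real.exp_le_exp.mpr
                  rw [mul_one_div, div_le_one (by linarith)]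
                  linarith
          have h2 : 0 < (1 + 1 / (2 * ((n : ℝ) - 1))) ^ n := by positivity
          have h3 : ((2 : ℝ) ^ n)⁻¹ * ((1 + 1 / (2 * ((n : ℝ) - 1))) ^ n)⁻¹ * (Real.exp 1 * 2 ^ n)
              = Real.exp 1 / (1 + 1 / (2 * ((n : ℝ) - 1))) ^ n := by
            field_simp
          rw [h3, le_div_iff₀ h2]
          linarith
        have h4 : (n : ℝ) * Lg ≤ (((n : ℝ) - 1) / (2 * n - 1)) ^ n * τ := by
          rw [hτd, ← mul_assoc]
          nlinarith
        have h5 : Real.exp (-((((n : ℝ) - 1) / (2 * n - 1)) ^ n * τ)) ≤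
            (((n : ℝ) ^ 2 + n) ^ n)⁻¹ := by
          calc Real.exp (-((((n : ℝ) - 1) / (2 * n - 1)) ^ n * τ)) ≤ Real.exp (-(n * Lg)) := by
                apply Real.exp_le_exp.mpr
                linarith
            _ = (((n : ℝ) ^ 2 + n) ^ n)⁻¹ := by
                rw [Real.exp_neg, Real.exp_nat_mul, hLg, Real.exp_log (by positivity)]
        rw [e2, mul_pow]
        have h6 : 0 < ((n : ℝ) ^ 2 + n) ^ n := by positivity
        have hδ0 : 0 < δ := by positivity
        calc Real.exp (-((((n : ℝ) - 1) / (2 * n - 1)) ^ n * τ)) * (((n : ℝ) ^ 2 + n) ^ n * δ ^ n)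
            ≤ (((n : ℝ) ^ 2 + n) ^ n)⁻¹ * (((n : ℝ) ^ 2 + n) ^ n * δ ^ n) := by gcongr
          _ = δ ^ n := by rw [← mul_assoc, inv_mul_cancel₀ h6.ne', one_mul])
      (by
        rw [hfr]
        refine le_trans ?_ hV
        unfold bd
        rw [hτd, ← hLg]
        have he := Real.exp_one_lt_d9
        have h2n : (4 : ℝ) ≤ 2 ^ n := by
          calc (4 : ℝ) = 2 ^ 2 := by norm_num
            _ ≤ 2 ^ n := pow_le_pow_right₀ (by norm_num) hn
        have hP : (12 : ℝ) ≤ 2 ^ n * (n * Lg) := by nlinarith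
        have e1 : Real.exp 1 * 2 ^ n * ((n : ℝ) * Lg) = Real.exp 1 * (2 ^ n * (n * Lg)) := by ring
        rw [e1]
        nlinarith)
    obtain ⟨x, hx⟩ := hmain
    refine ⟨fun i => x i + c - lam i • c, fun k hk => ?_⟩
    have := hx ⟨k, hk, rfl⟩
    rw [Set.mem_iUnion] at this ⊢
    obtain ⟨i, hi⟩ := this
    obtain ⟨_, ⟨k', hk', rfl⟩, hkk⟩ := mem_Tr.mp hi
    refine ⟨i, k', hk', ?_⟩
    simp only at hkk ⊢
    rw [smul_sub] at hkk
    have : k = (k - c) + c := by abel
    rw [this, hkk]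
    abel

end Pool.Agent.H519R2.Homo
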