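import Mathlib
import Pool.Agent.H519R2.Homo.Final

set_option autoImplicit false

/-!
The cube needs `2^n - 1`; the exponential growth rate of the worst case is two.
-/

namespace Pool.Agent.H519R2.Homo

open MeasureTheory Set Module Filter Topology
open scoped ENNReal Pointwise

/-- The unit cube. -/
def cube (n : ℕ) : Set (EuclideanSpace ℝ (Fin n)) := {x | ∀ i, x i ∈ Set.Icc (0 : ℝ) 1}

theorem cube_eq (n : ℕ) : cube n = (WithLp.ofLp) ⁻¹' (Set.Icc (0 : Fin n → ℝ) 1) := by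
  ext x
  simp only [cube, Set.mem_ofPred_eq, Set.mem_preimage, Set.mem_Icc, Pi.le_def, Pi.zero_apply,
    Pi.one_apply]
  constructor
  · intro h
    exact ⟨fun i => (h i).1, fun i => (h i).2⟩
  · intro h i
    exact ⟨h.1 i, h.2 i⟩

theorem cube_unit (n : ℕ) : UnitBody (cube n) := by
  refine ⟨?_, ?_, ?_, ?_⟩
  · intro x hx y hy a b ha hb hab i
    have h1 := hx i
    have h2 := hy i
    simp only [Set.mem_Icc, PiLp.add_apply, PiLp.smul_apply, smul_eq_mul] at *
    constructor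
    · nlinarith [h1.1, h2.1]
    · nlinarith [h1.2, h2.2]
  · have h1 : IsCompact (Set.Icc (0 : Fin n → ℝ) 1) := isCompact_Icc
    have h2 : cube n = (WithLp.toLp 2) '' (Set.Icc (0 : Fin n → ℝ) 1) := by
      rw [cube_eq]
      ext x
      simp only [Set.mem_preimage, Set.mem_image]
      constructor
      · intro h
        exact ⟨_, h, rfl⟩
      · rintro ⟨y, hy, rfl⟩
        exact hy
    rw [h2]
    exact h1.image (PiLp.continuous_toLp 2 _)
  · refine ⟨WithLp.toLp 2 (fun _ => (1 : ℝ) / 2), ?_⟩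
    rw [mem_interior]
    refine ⟨{x | ∀ i, x i ∈ Set.Ioo (0 : ℝ) 1}, ?_, ?_, ?_⟩
    · intro x hx i
      exact Set.Ioo_subset_Icc_self (hx i)
    · have : {x : EuclideanSpace ℝ (Fin n) | ∀ i, x i ∈ Set.Ioo (0 : ℝ) 1}
          = ⋂ i, (fun x : EuclideanSpace ℝ (Fin n) => x i) ⁻¹' Set.Ioo (0 : ℝ) 1 := by
        ext x; simp
      rw [this]
      refine isOpen_iInter_of_finite fun i => isOpen_Ioo.preimage ?_
      fun_prop
    · intro i
      norm_num
  · rw [cube_eq, (PiLp.volume_preserving_ofLp (Fin n)).measure_preimage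
      measurableSet_Icc.nullMeasurableSet, Real.volume_Icc_pi]
    simp

/-- vertices of the cube -/
noncomputable def vert {n : ℕ} (v : Fin n → Bool) : EuclideanSpace ℝ (Fin n) :=
  WithLp.toLp 2 (fun i => if v i then 1 else 0)

theorem cube_lower (n : ℕ) (hn : 1 ≤ n) (t : ℝ) (ht : Enough (cube n) t) :
    (2 : ℝ) ^ n - 1 ≤ t := by
  by_contra hcon
  push Not at hcon
  obtain ⟨ht0, hcov⟩ := ht
  have h2n : (2 : ℝ) ≤ 2 ^ n := by
    calc (2 : ℝ) = 2 ^ 1 := by norm_num
      _ ≤ 2 ^ n := pow_le_pow_right₀ (by norm_num) hn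
  set N : ℕ := 2 ^ n - 1 with hN
  have hNr : (N : ℝ) = 2 ^ n - 1 := by
    rw [hN, Nat.cast_sub (Nat.one_le_two_pow)]
    push_cast
    ring
  have hN0 : (0 : ℝ) < 2 ^ n - 1 := by linarith
  set q : ℝ := t / (2 ^ n - 1) with hq
  have hq0 : 0 < q := by positivity
  have hq1 : q < 1 := by rw [hq, div_lt_one hN0]; exact hcon
  set r : ℝ := q ^ (1 / (n : ℝ)) with hr
  have hn0 : (0 : ℝ) < n := by exact_mod_cast hn
  have hr0 : 0 < r := by positivity
  have hr1 : r < 1 := Real.rpow_lt_one hq0.le hq1 (by positivity)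
  have hrn : r ^ n = q := by
    rw [hr, ← Real.rpow_natCast, ← Real.rpow_mul hq0.le, one_div, inv_mul_cancel₀ hn0.ne',
      Real.rpow_one]
  obtain ⟨x, hx⟩ := hcov N (fun _ => r) (fun _ => hr0) (by
    rw [Finset.sum_const, Finset.card_univ, Fintype.card_fin, nsmul_eq_mul, hrn, hNr, hq]
    rw [mul_div_cancel₀ _ hN0.ne'])
  have hv : ∀ v : Fin n → Bool, ∃ i : Fin N, vert v ∈ (fun k => r • k + x i) '' cube n := by
    intro v
    have : vert v ∈ cube n := by
      intro i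
      simp only [vert]
      split_ifs <;> simp
    have := hx this
    rw [Set.mem_iUnion] at this
    exact this
  choose g hg using hv
  have hninj : ¬ Function.Injective g := by
    intro hinj
    have := Fintype.card_le_of_injective g hinj
    simp only [Fintype.card_fin, Fintype.card_fun, Fintype.card_bool] at this
    have : 1 ≤ 2 ^ n := Nat.one_le_two_pow
    omega
  rw [Function.Injective] at hninj
  push Not at hninj
  obtain ⟨v, w, hvw, hne⟩ := hninj
  obtain ⟨j, hj⟩ := Function.ne_iff.mp hne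
  obtain ⟨a, ha, ha'⟩ := hg v
  obtain ⟨b, hb, hb'⟩ := hg w
  have e1 : vert v j = r * a j + x (g v) j := by rw [← ha']; rfl
  have e2 : vert w j = r * b j + x (g w) j := by rw [← hb']; rfl
  rw [← hvw] at e2
  have ha1 := ha j
  have hb1 := hb j
  rw [Set.mem_Icc] at ha1 hb1
  have hdiff : vert v j - vert w j = r * (a j - b j) := by rw [e1, e2]; ring
  have habs : |vert v j - vert w j| = 1 := by
    simp only [vert]
    cases hvj : v j <;> cases hwj : w j <;> simp_all
  have hab : |a j - b j| ≤ 1 := by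
    rw [abs_le]
    constructor <;> linarith [ha1.1, ha1.2, hb1.1, hb1.2]
  rw [hdiff, abs_mul, abs_of_pos hr0] at habs
  nlinarith [abs_nonneg (a j - b j)]

theorem bd_pos (n : ℕ) (hn : 2 ≤ n) : 0 < bd n := by
  have := log_bd n hn
  unfold bd
  positivity

theorem enough_bd (n : ℕ) (hn : 2 ≤ n) (K : Set (EuclideanSpace ℝ (Fin n))) (hK : Convex ℝ K)
    (hKc : IsCompact K) (hKi : (interior K).Nonempty) : Enough K (bd n) :=
  ⟨bd_pos n hn, fun N lam hlam hV => covers_of_le n hn K hK hKc hKi N lam hlam hV⟩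

theorem f_le (n : ℕ) (hn : 2 ≤ n) (K : Set (EuclideanSpace ℝ (Fin n))) (hK : Convex ℝ K)
    (hKc : IsCompact K) (hKi : (interior K).Nonempty) : f K ≤ bd n :=
  csInf_le ⟨0, fun _ ht => ht.1.le⟩ (enough_bd n hn K hK hKc hKi)

theorem le_f_cube (n : ℕ) (hn : 2 ≤ n) : (2 : ℝ) ^ n - 1 ≤ f (cube n) := by
  obtain ⟨h1, h2, h3, -⟩ := cube_unit n
  exact le_csInf ⟨_, enough_bd n hn _ h1 h2 h3⟩ fun t ht => cube_lower n (by omega) t ht

theorem F_le (n : ℕ) (hn : 2 ≤ n) : F n ≤ bd n := by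
  refine csSup_le ⟨f (cube n), cube n, cube_unit n, rfl⟩ ?_
  rintro r ⟨K, ⟨hK, hKc, hKi, -⟩, rfl⟩
  exact f_le n hn K hK hKc hKi

theorem le_F (n : ℕ) (hn : 2 ≤ n) : (2 : ℝ) ^ n - 1 ≤ F n := by
  refine (le_f_cube n hn).trans (le_csSup ⟨bd n, ?_⟩ ⟨cube n, cube_unit n, rfl⟩)
  rintro r ⟨K, ⟨hK, hKc, hKi, -⟩, rfl⟩
  exact f_le n hn K hK hKc hKi

theorem tendsto_const_rpow (c : ℝ) (hc : 0 < c) :
    Tendsto (fun n : ℕ => c ^ (1 / (n : ℝ))) atTop (𝓝 1) := by
  have h1 : Tendsto (fun n : ℕ => 1 / (n : ℝ)) atTop (𝓝 0) := tendsto_one_div_atTop_nhds_zero_nat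
  have h2 : Tendsto (fun n : ℕ => c ^ (1 / (n : ℝ))) atTop (𝓝 (c ^ (0 : ℝ))) :=
    (Real.continuousAt_const_rpow (b := 0) hc.ne').tendsto.comp h1
  rw [Real.rpow_zero] at h2
  exact h2

theorem F_growth : Tendsto (fun n : ℕ => F n ^ (1 / (n : ℝ))) atTop (𝓝 2) := by
  have hlow : Tendsto (fun n : ℕ => 2 * ((1 : ℝ) / 2) ^ (1 / (n : ℝ))) atTop (𝓝 2) := by
    have := (tendsto_const_rpow (1 / 2) (by norm_num)).const_mul 2
    simpa using this
  have hup : Tendsto (fun n : ℕ => 2 * ((6 : ℝ) ^ (1 / (n : ℝ)) * (n : ℝ) ^ (3 / (n : ℝ)))) atTop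
      (𝓝 2) := by
    have h1 := tendsto_const_rpow 6 (by norm_num)
    have h2 : Tendsto (fun n : ℕ => (n : ℝ) ^ (3 / (n : ℝ))) atTop (𝓝 1) := by
      have h3 := (tendsto_rpow_div_mul_add 3 1 0 (by norm_num)).comp tendsto_natCast_atTop_atTop
      refine h3.congr fun n => ?_
      simp
    have := (h1.mul h2).const_mul 2
    simpa using this
  refine tendsto_of_tendsto_of_tendsto_of_le_of_le' hlow hup ?_ ?_
  · filter_upwards [eventually_ge_atTop 2] with n hn
    have hn0 : (0 : ℝ) < n := by positivity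
    have h1 := le_F n hn
    have h2n : (2 : ℝ) ≤ 2 ^ n := by
      calc (2 : ℝ) = 2 ^ 1 := by norm_num
        _ ≤ 2 ^ n := pow_le_pow_right₀ (by norm_num) (by omega)
    have h2 : (2 : ℝ) ^ n * (1 / 2) ≤ F n := by linarith
    calc 2 * ((1 : ℝ) / 2) ^ (1 / (n : ℝ)) = ((2 : ℝ) ^ n * (1 / 2)) ^ (1 / (n : ℝ)) := by
          rw [Real.mul_rpow (by positivity) (by norm_num), ← Real.rpow_natCast,
            ← Real.rpow_mul (by norm_num), mul_one_div_cancel hn0.ne', Real.rpow_one]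
      _ ≤ F n ^ (1 / (n : ℝ)) := Real.rpow_le_rpow (by positivity) h2 (by positivity)
  · filter_upwards [eventually_ge_atTop 2] with n hn
    have hn0 : (0 : ℝ) < n := by positivity
    have hn2 : (2 : ℝ) ≤ n := by exact_mod_cast hn
    have h1 := F_le n hn
    have h0 : 0 ≤ F n := by
      have := le_F n hn
      have h2n : (1 : ℝ) ≤ 2 ^ n := one_le_pow₀ (by norm_num)
      linarith
    have h2 : bd n ≤ 2 ^ n * (6 * (n : ℝ) ^ (3 : ℝ)) := by
      unfold bd
      have h3 : Real.log ((n : ℝ) ^ 2 + n) ≤ (n : ℝ) ^ 2 + n :=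
        (Real.log_le_sub_one_of_pos (by positivity)).trans (by linarith)
      have h4 : (n : ℝ) ^ (3 : ℝ) = n * (n * n) := by
        rw [show (3 : ℝ) = ((3 : ℕ) : ℝ) by norm_num, Real.rpow_natCast]; ring
      rw [h4]
      calc 3 * 2 ^ n * (n * Real.log ((n : ℝ) ^ 2 + n)) ≤ 3 * 2 ^ n * (n * ((n : ℝ) ^ 2 + n)) := by
            gcongr
        _ ≤ 3 * 2 ^ n * (n * (2 * (n * n))) := by
            gcongr
            nlinarith
        _ = 2 ^ n * (6 * (n * (n * n))) := by ring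
    calc F n ^ (1 / (n : ℝ)) ≤ (2 ^ n * (6 * (n : ℝ) ^ (3 : ℝ))) ^ (1 / (n : ℝ)) :=
          Real.rpow_le_rpow h0 (h1.trans h2) (by positivity)
      _ = 2 * ((6 : ℝ) ^ (1 / (n : ℝ)) * (n : ℝ) ^ (3 / (n : ℝ))) := by
          rw [Real.mul_rpow (by positivity) (by positivity), Real.mul_rpow (by positivity)
            (by positivity), ← Real.rpow_natCast 2 n, ← Real.rpow_mul (by norm_num),
            mul_one_div_cancel hn0.ne', Real.rpow_one, ← Real.rpow_mul (by positivity),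
            mul_one_div]

end Pool.Agent.H519R2.Homo
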